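import Pool.Agent.helper56.P2B.SpecP

/-! p2b:CHA (helper39): a closed chain does not exist. -/

set_option autoImplicit false

open Complex Metric Set Filter Topology MeasureTheory
open Pool.Agent.helper98.ILF
open WP (it)
open HY (UD T S hd UN RM)
open PM
open PL (TP LO PZ GJ INR PG DK ht tr DI CY SUBH hG hq BJ)
open P2 (SS FLS FL CLS FR TL)

noncomputable section

namespace P2B

theorem CHA : CHA_stmt := by
  intro a k M hk hM h0 h1 hrec
  have key : ∀ r, 1 ≤ a r ∧ a r < a (r + 1) := by
    intro r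
    induction r with
    | zero => exact ⟨h0.ge, by rw [h0]; exact h1⟩
    | succ r ih =>
      obtain ⟨i1, i2⟩ := ih
      have h2 := hrec r
      have h3 : 1 < a (r + 1) := lt_of_le_of_lt i1 i2
      refine ⟨h3.le, ?_⟩
      have h4 : 2 * a (r + 1) ≤ 2 * k * a (r + 1) := by nlinarith
      have h5 : r + 1 + 1 = r + 2 := rfl
      rw [h5]
      linarith
  obtain ⟨M', rfl⟩ : ∃ M', M = M' + 1 := ⟨M - 1, by omega⟩
  obtain ⟨i1, i2⟩ := key M'
  exact (lt_of_le_of_lt i1 i2).ne'

end P2B
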