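import Pool.Agent.helper56.P2B.SpecD

/-! p2b:KAP (helper39): `κ` is near `1` if the return is near the identity. -/

set_option autoImplicit false

open Complex Metric Set Filter Topology MeasureTheory
open Pool.Agent.helper98.ILF
open WP (it)
open HY (UD T S hd UN RM)
open PM
open PL (TP LO PZ GJ INR PG DK ht tr DI CY SUBH hG hq BJ)
open P2 (SS FLS FL CLS FR TL)

noncomputable section

namespace P2B

theorem KAP (hCRC : CRC_stmt) (hTSP : PM.TSP_stmt) : KAP_stmt := by
  obtain ⟨K, hK, hC⟩ := hCRC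
  refine ⟨K, hK, ?_⟩
  intro Ω Ω' G G' κ a b hPG hPG' hLK ha hb
  have hK0 : 0 < K := by linarith
  obtain ⟨hbΩ, hcr⟩ := hC Ω hPG.dd hPG.z0 hPG.one b hb
  have hκ := hLK.k0
  have ha0 := hLK.a0
  have hne : (a : ℂ) * (κ : ℂ) ≠ 0 := mul_ne_zero (by exact_mod_cast ha0) (by exact_mod_cast hκ.ne')
  set h : ℂ → ℂ := fun w => (w - b) / ((a : ℂ) * (κ : ℂ)) with hh
  have hd : Differentiable ℂ h := (differentiable_id.sub_const b).div_const _
  have hmap : MapsTo h Ω Ω' := by
    intro w hw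
    rw [← hLK.iff]
    have : (a : ℂ) * ((κ : ℂ) * h w) + b = w := by
      simp only [hh]
      rw [← mul_assoc, mul_div_cancel₀ _ hne]
      ring
    rw [this]; exact hw
  have h1 := (hTSP Ω Ω' h hPG.dd hPG'.dd hd.differentiableOn hmap b hbΩ).1
  have h2 : h b = 0 := by simp [hh]
  have h3 : deriv h b = 1 / ((a : ℂ) * (κ : ℂ)) := by
    have : HasDerivAt h (1 / ((a : ℂ) * (κ : ℂ))) b := ((hasDerivAt_id b).sub_const b).div_const _
    exact this.deriv
  rw [h2, hPG'.one, h3, norm_div, norm_one, norm_mul, Complex.norm_real, Complex.norm_real,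
    Real.norm_of_nonneg hκ.le, Real.norm_eq_abs] at h1
  have ha1 : 0 < |a| := abs_pos.2 ha0
  have h4 : cr Ω b ≤ |a| * κ := by
    rw [div_mul_eq_mul_div, one_mul, div_le_iff₀ (by positivity)] at h1
    linarith
  have h5 : 1 - K * ‖b‖ ≤ |a| * κ := by
    have := (abs_le.1 hcr).1
    linarith
  have h6 : |a| ≤ 1 + |a - 1| := by
    have := abs_add_le (a - 1) 1
    simp at this
    linarith
  have h7 : K * ‖b‖ ≤ 1 := by
    have : K * ‖b‖ ≤ K * (1 / K) := by gcongr
    rwa [mul_one_div_cancel hK0.ne'] at this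
  have h8 : 0 ≤ |a - 1| := abs_nonneg _
  have h9 : 1 - K * ‖b‖ ≤ (1 + |a - 1|) * κ := h5.trans (by gcongr)
  have hb0 : 0 ≤ ‖b‖ := norm_nonneg _
  -- `κ ≥ 1 - K (|a-1| + ‖b‖)`
  have hk1 := hLK.k1
  nlinarith

end P2B
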