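import Pool.Agent.helper56.P2B.SpecD

/-! p2b:PHC (helper39): places depend only on the germ of the times. -/

set_option autoImplicit false

open Complex Metric Set Filter Topology MeasureTheory
open Pool.Agent.helper98.ILF
open WP (it)
open HY (UD T S hd UN RM)
open PM
open PL (TP LO PZ GJ INR PG DK ht tr DI CY SUBH hG hq BJ)
open P2 (SS FLS FL CLS FR TL)

noncomputable section

namespace P2B

theorem PHC : PHC_stmt := by
  intro f R x U n t t' a χ G htt h
  have hH : ∀ᶠ j in (U : Filter ℕ), n j + t j = n j + t' j := by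
    filter_upwards [htt] with j hj
    rw [hj]
  refine ⟨?_, ?_, h.pg, h.ty, h.onto, h.g0, h.lo⟩
  · refine ⟨h.fr.le, h.fr.hH.congr' hH, h.fr.dif, h.fr.inj, h.fr.val, h.fr.one, ?_⟩
    intro u hu z hz
    obtain ⟨s, hs, hs2⟩ := h.fr.cv u hu z hz
    refine ⟨s, hs, ?_⟩
    filter_upwards [hs2, hH] with j hj1 hj2 y hy
    have := hj1 y hy
    rw [← hj2]
    exact this
  · refine ⟨?_, ?_⟩
    · filter_upwards [h.tl.le, htt] with j hj1 hj2
      rw [← hj2]; exact hj1
    · intro u hu z hz
      obtain ⟨s, hs, hs2⟩ := h.tl.cv u hu z hz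
      refine ⟨s, hs, ?_⟩
      filter_upwards [hs2, htt] with j hj1 hj2 y hy
      have := hj1 y hy
      rw [← hj2]
      exact this

end P2B
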