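import Pool.Agent.helper56.P2B.SpecP

/-! p2b:TPS (helper39): two points with the same value. -/

set_option autoImplicit false

open Complex Metric Set Filter Topology MeasureTheory
open Pool.Agent.helper98.ILF
open WP (it)
open HY (UD T S hd UN RM)
open PM
open PL (TP LO PZ GJ INR PG DK ht tr DI CY SUBH hG hq BJ)
open P2 (SS FLS FL CLS FR TL)

noncomputable section

namespace P2B

theorem TPS_two (hMOB : HY.MOB_stmt) {h : ℂ → ℂ} (hd : DifferentiableOn ℂ h UD) (hm : MapsTo h UD UD)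
    (h0 : h 0 = 0) {u : ℂ} (hu : u ∈ UD) (hu0 : u ≠ 0) (hhu : h u = 0) : ‖deriv h 0‖ ≤ ‖u‖ := by
  have h0U : (0:ℂ) ∈ UD := mem_ball_self one_pos
  set k : ℂ → ℂ := dslope h 0 with hk
  have hkd : DifferentiableOn ℂ k UD :=
    (Complex.differentiableOn_dslope (isOpen_ball.mem_nhds h0U)).2 hd
  have hm' : MapsTo h (ball 0 1) (closedBall (h 0) 1) := by
    rw [h0]; exact fun x hx => ball_subset_closedBall (hm hx)
  have hk1 : ∀ x ∈ UD, ‖k x‖ ≤ 1 := by
    intro x hx
    have := Complex.norm_dslope_le_div_of_mapsTo_ball (f := h) (c := 0) (R₁ := 1) (R₂ := 1) hd hm' hx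
    simpa using this
  have hku : k u = 0 := by
    rw [hk, dslope_of_ne _ hu0, slope_def_field, hhu, h0]
    simp
  have hk0 : k 0 = deriv h 0 := dslope_same _ _
  obtain ⟨hST, hTaa, hS0, -, hSd, -⟩ := hMOB u hu
  have hSm : MapsTo (S u) UD UD := fun x hx => (hST x hx).2.1
  set g : ℂ → ℂ := fun x => k (S u x) with hg
  have hgd : DifferentiableOn ℂ g (ball 0 1) := hkd.comp hSd hSm
  have hg0 : g 0 = 0 := by simp only [hg]; rw [hS0]; exact hku
  have hT0 : T u 0 = -u := by simp [T]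
  have hTm : T u 0 ∈ UD := (hST 0 h0U).1
  have hgT : g (T u 0) = deriv h 0 := by
    simp only [hg]
    rw [(hST 0 h0U).2.2.1, hk0]
  rw [← hgT]
  have hmg : MapsTo g (ball 0 1) (closedBall (g 0) 1) := by
    intro x hx
    rw [hg0, mem_closedBall_zero_iff]
    exact hk1 _ (hSm hx)
  have h1 := Complex.dist_le_div_mul_dist_of_mapsTo_ball hgd hmg hTm
  rw [hg0, dist_zero_right, dist_zero_right, div_one, one_mul] at h1
  refine h1.trans ?_
  rw [hT0, norm_neg]

theorem TPS (hTDF : PM.TDF_stmt) (hMOB : HY.MOB_stmt) (hHDI : HY.HDI_stmt) : TPS_stmt := by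
  intro Ω G hΩ hGd hGm z hz z' hz' hne hGG
  obtain ⟨hΩo, -, hall⟩ := hTDF Ω hΩ
  obtain ⟨hRM, hcr, -, hpd0, -, hcx, hrm⟩ := hall z hz
  obtain ⟨c1, c2, c3, c4, c5, c6⟩ := hcx z' hz'
  set φ : ℂ → ℂ := rm Ω z with hφ
  set u : ℂ := cx Ω z z' with hu
  have h0U : (0:ℂ) ∈ UD := mem_ball_self one_pos
  have hφd : DifferentiableOn ℂ φ UD := hRM.dif
  have hφ0 : φ 0 = z := hRM.val
  have hφm : MapsTo φ UD Ω := fun x hx => (hrm x hx).1
  have hu0 : u ≠ 0 := by
    intro h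
    have : φ u = z' := c2
    rw [h, hφ0] at this
    exact hne this
  have hφat : DifferentiableAt ℂ φ 0 := hφd.differentiableAt (isOpen_ball.mem_nhds h0U)
  have hGat : DifferentiableAt ℂ G z := hGd.differentiableAt (hΩo.mem_nhds hz)
  set F : ℂ → ℂ := fun x => G (φ x) with hF
  have hFd : DifferentiableOn ℂ F UD := hGd.comp hφd hφm
  have hFm : MapsTo F UD UD := fun x hx => hGm (hφm hx)
  have hF0 : F 0 = G z := by simp only [hF]; rw [hφ0]
  have hFu : F u = G z := by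
    simp only [hF]
    have : φ u = z' := c2
    rw [this, hGG]
  have hwU : G z ∈ UD := hGm hz
  obtain ⟨hST, hTaa, hS0, hTd, -⟩ := hMOB (G z) hwU
  set h : ℂ → ℂ := fun x => T (G z) (F x) with hh
  have hhd : DifferentiableOn ℂ h UD := hTd.comp hFd hFm
  have hhm : MapsTo h UD UD := fun x hx => (hST _ (hFm hx)).1
  have hh0 : h 0 = 0 := by simp only [hh]; rw [hF0, hTaa]
  have hhu : h u = 0 := by simp only [hh]; rw [hFu, hTaa]
  have hmain := TPS_two hMOB hhd hhm hh0 c1 hu0 hhu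
  -- `hd h 0 = hd F 0`
  have hFat : DifferentiableAt ℂ F 0 := hFd.differentiableAt (isOpen_ball.mem_nhds h0U)
  have e1 := (hHDI.1 (G z) F 0 hwU hFat (hFm h0U)).1
  have e2 : hd h 0 = ‖deriv h 0‖ := by
    rw [hd, hh0]; simp
  have e3 : deriv F 0 = deriv G z * deriv φ 0 := by
    have h1 : HasDerivAt F (deriv G (φ 0) * deriv φ 0) 0 := by
      have h2 : DifferentiableAt ℂ G (φ 0) := by rw [hφ0]; exact hGat
      exact h2.hasDerivAt.comp 0 hφat.hasDerivAt
    rw [h1.deriv, hφ0]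
  have e4 : hG Ω G z = hd F 0 := by
    rw [hG, hd, e3, hF0, norm_mul]
    rfl
  rw [e4, ← e1, c3]
  have e5 : hd (fun z_1 => T (G z) (F z_1)) 0 = ‖deriv h 0‖ := e2
  rw [e5]
  exact hmain

end P2B
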